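import Pool.Agent.Lib.H58F.M

/-!
Base-2 pseudoprimes `n` below `x` counted according to the size of
`W(n) = ∏_(p^a ∥ n) max(ord_p(2), √p)^a`, which lies between `√n` and `n`: at most
`x L(x)^(-γ+ε)` of them have `W(n) ≥ x^γ`, for all real `γ` at once, with
`L(x) = exp(log x logloglog x / loglog x)`.
-/

set_option autoImplicit false

namespace Pool.Agent.Results.MP_df4d4d_nt.OrderWeights

/-- **Main result.** For every `ε > 0` there is `x₀` such that for all `x ≥ x₀` and all real `γ`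
at most `x L(x)^(ε-γ)` base-2 pseudoprimes `n < x` have `W(n) ≥ x^γ`. -/
theorem result : ∀ ε : ℝ, 0 < ε → ∃ x₀ : ℝ, ∀ x : ℝ, x₀ ≤ x → ∀ γ : ℝ,
    ({n : ℕ | (n : ℝ) < x ∧ Nat.FermatPsp n 2 ∧
        x ^ γ ≤ (n.primeFactorsList.map
          (fun p => max (orderOf (2 : ZMod p) : ℝ) (Real.sqrt p))).prod}.ncard : ℝ) ≤
      x * Real.exp (Real.log x * Real.log (Real.log (Real.log x)) / Real.log (Real.log x)) ^
        (ε - γ) := by
  intro ε hε
  exact H58F.main ε hε

end Pool.Agent.Results.MP_df4d4d_nt.OrderWeights
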